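import Pool.Agent.Lib_helper29.G4.PM2
import Pool.Agent.Lib_helper44.G5.Defs
import Pool.Agent.Lib_helper44.G5.NUMH
import Pool.Agent.Lib_helper93.G4.CNT
import Pool.Agent.Lib_helper93.G4.ORTH

/-! Block MM2 (G5): variance of the sum over prime powers. -/

namespace Pool.Agent.G5

open Complex MeasureTheory Filter Topology
open Pool.Agent.G4 (par Ix ev pairs RSB IsKer D hatw smo orth_pr card_pairs_dvd_pr pm2_ev
  pm2_hhat pm2_log)

/-! ### General facts -/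

theorem mm2_ev_mul (x : Ix) (a b : ℕ) : ev x (a * b) = ev x a * ev x b := by
  unfold ev
  rw [Nat.cast_mul, map_mul]

theorem mm2_ev_pow (x : Ix) (a k : ℕ) : ev x (a ^ k) = ev x a ^ k := by
  unfold ev
  rw [Nat.cast_pow, map_pow]

theorem mm2_ev_one (x : Ix) : ev x 1 = 1 := by
  unfold ev
  rw [Nat.cast_one, map_one]

theorem mm2_orth (N : ℕ) {ι : Type} (s : Finset ι) (A : ι → ℂ) (n d : ι → ℕ)
    (hn : ∀ i ∈ s, 0 < n i) (hd : ∀ i ∈ s, 0 < d i)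
    (hinj : ∀ i ∈ s, ∀ j ∈ s, n i * d j = n j * d i → i = j) :
    ∃ Q₀ : ℕ, ∀ Q : ℕ, Q₀ ≤ Q →
      ∑ x ∈ pairs N Q, ‖∑ i ∈ s, A i * ev x (n i) * starRingEnd ℂ (ev x (d i))‖ ^ 2 ≤
        ((∑ i ∈ s, ‖A i‖ ^ 2) + 1) * Q ^ 2 := by
  obtain ⟨Q0, h⟩ := orth_pr (ι := ↥s) N (fun i => ‖A i‖) (fun i => norm_nonneg _)
    (Summable.of_finite) (fun i => n i) (fun i => d i) (fun i => hn i i.2) (fun i => hd i i.2)
    (fun i j hij => Subtype.ext (hinj i i.2 j j.2 hij)) one_pos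
  refine ⟨Q0, fun Q hQ => ?_⟩
  have h1 := h Q hQ (fun i => A i) (fun i => le_rfl)
  rw [tsum_fintype, Finset.sum_coe_sort s (fun i => ‖A i‖ ^ 2)] at h1
  refine le_trans (le_of_eq ?_) h1
  refine Finset.sum_congr rfl fun x _ => ?_
  rw [tsum_fintype, Finset.sum_coe_sort s
    (fun i => A i * ev x (n i) * starRingEnd ℂ (ev x (d i)))]

theorem mm2_pp {a b : ℕ} (ha : a.Prime) (hb : b.Prime) (hab : a ≠ b) {j k s t : ℕ}
    (h : a ^ j * b ^ k = a ^ s * b ^ t) : j = s ∧ k = t := by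
  have hcop : ∀ i i' : ℕ, Nat.Coprime (a ^ i) (b ^ i') := fun i i' =>
    Nat.Coprime.pow _ _ ((Nat.coprime_primes ha hb).2 hab)
  have h1 : a ^ j ∣ a ^ s := (hcop j t).dvd_of_dvd_mul_right (h ▸ Dvd.intro _ rfl)
  have h2 : a ^ s ∣ a ^ j := (hcop s k).dvd_of_dvd_mul_right (h ▸ Dvd.intro _ rfl)
  have h3 : j = s := le_antisymm (Nat.pow_dvd_pow_iff_le_right ha.one_lt |>.1 h1)
    (Nat.pow_dvd_pow_iff_le_right ha.one_lt |>.1 h2)
  subst h3
  have h4 : b ^ k = b ^ t := Nat.eq_of_mul_eq_mul_left (pow_pos ha.pos j) h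
  exact ⟨rfl, Nat.pow_right_injective hb.two_le h4⟩

theorem mm2_dvd {p a b : ℕ} (hp : p.Prime) (ha : a.Prime) (hb : b.Prime) {s t : ℕ}
    (h : p ∣ a ^ s * b ^ t) : p = a ∨ p = b := by
  rcases (Nat.Prime.dvd_mul hp).1 h with h1 | h1
  · exact Or.inl ((Nat.prime_dvd_prime_iff_eq hp ha).1 (hp.dvd_of_dvd_pow h1))
  · exact Or.inr ((Nat.prime_dvd_prime_iff_eq hp hb).1 (hp.dvd_of_dvd_pow h1))

theorem mm2_int_exp {w : ℝ → ℝ} (hw : Continuous w) (hc : HasCompactSupport w) (u : ℝ) :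
    Integrable (fun t : ℝ => (w t : ℂ) * cexp (t * u * I)) := by
  have h2 : Continuous (fun t : ℝ => (w t : ℂ) * cexp (t * u * I)) :=
    (Complex.continuous_ofReal.comp hw).mul (by fun_prop)
  exact h2.integrable_of_hasCompactSupport ((hc.comp_left Complex.ofReal_zero).mul_right)

theorem mm2_hat_conj (w : ℝ → ℝ) (u : ℝ) : starRingEnd ℂ (hatw w u) = hatw w (-u) := by
  unfold hatw
  rw [← integral_conj]
  refine integral_congr_ae (ae_of_all _ fun t => ?_)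
  simp only [map_mul, Complex.conj_ofReal]
  rw [← Complex.exp_conj]
  simp only [map_mul, Complex.conj_ofReal, Complex.conj_I]
  congr 2
  push_cast
  ring

theorem mm2_hat_zero (w : ℝ → ℝ) : hatw w 0 = ((∫ t : ℝ, w t : ℝ) : ℂ) := by
  have h : ∀ t : ℝ, (w t : ℂ) * cexp (t * ((0 : ℝ) : ℂ) * I) = ((w t : ℝ) : ℂ) := by
    intro t
    simp
  rw [hatw]
  simp_rw [h]
  exact integral_ofReal

/-! ### The expansion -/

section
variable (c : ℕ → ℕ → ℂ) (P K : ℕ) (w : ℝ → ℝ) (x : Ix)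

/-- `∫ w F_p F_{p'}` -/
noncomputable def mm2T (p p' : ℕ) : ℂ :=
  ∑ q ∈ Finset.Icc 1 K ×ˢ Finset.Icc 1 K, c p q.1 * c p' q.2 *
    hatw w (-(q.1 * Real.log p + q.2 * Real.log p')) * (ev x p ^ q.1 * ev x p' ^ q.2)

/-- `∫ w F_p conj F_{p'}` -/
noncomputable def mm2U (p p' : ℕ) : ℂ :=
  ∑ q ∈ Finset.Icc 1 K ×ˢ Finset.Icc 1 K, c p q.1 * starRingEnd ℂ (c p' q.2) *
    hatw w (q.2 * Real.log p' - q.1 * Real.log p) *
      (ev x p ^ q.1 * starRingEnd ℂ (ev x p' ^ q.2))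

/-- `F_p` -/
noncomputable def mm2F (p : ℕ) (t : ℝ) : ℂ :=
  ∑ k ∈ Finset.Icc 1 K, c p k * ev x p ^ k * cexp (-((k * Real.log p * t : ℝ) : ℂ) * I)

theorem mm2_FF (t : ℝ) : FF c P K x t = ∑ p ∈ Nat.primesBelow (P + 1), mm2F c K x p t := rfl

theorem mm2F_cont (p : ℕ) : Continuous (mm2F c K x p) := by
  unfold mm2F
  fun_prop

theorem mm2_FF_cont : Continuous (FF c P K x) := by
  have h : FF c P K x = fun t => ∑ p ∈ Nat.primesBelow (P + 1), mm2F c K x p t := by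
    funext t
    rfl
  rw [h]
  exact continuous_finsetSum _ fun p _ => mm2F_cont c K x p

variable {w}

theorem mm2_intT (hw : Continuous w) (hc : HasCompactSupport w) (p p' : ℕ) :
    ∫ t : ℝ, (w t : ℂ) * (mm2F c K x p t * mm2F c K x p' t) = mm2T c K w x p p' := by
  have h1 : ∀ t : ℝ, (w t : ℂ) * (mm2F c K x p t * mm2F c K x p' t) =
      ∑ q ∈ Finset.Icc 1 K ×ˢ Finset.Icc 1 K,
        (c p q.1 * c p' q.2 * (ev x p ^ q.1 * ev x p' ^ q.2)) *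
          ((w t : ℂ) * cexp (t * ((-(q.1 * Real.log p + q.2 * Real.log p') : ℝ) : ℂ) * I)) := by
    intro t
    unfold mm2F
    rw [Finset.sum_mul_sum, ← Finset.sum_product', Finset.mul_sum]
    refine Finset.sum_congr rfl fun q _ => ?_
    have h2 : cexp (t * ((-(q.1 * Real.log p + q.2 * Real.log p') : ℝ) : ℂ) * I) =
        cexp (-((q.1 * Real.log p * t : ℝ) : ℂ) * I) *
          cexp (-((q.2 * Real.log p' * t : ℝ) : ℂ) * I) := by
      rw [← Complex.exp_add]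
      congr 1
      push_cast
      ring
    rw [h2]
    ring
  simp_rw [h1]
  rw [integral_finsetSum]
  · unfold mm2T
    refine Finset.sum_congr rfl fun q _ => ?_
    rw [integral_const_mul, hatw]
    ring
  · intro q _
    exact (mm2_int_exp hw hc _).const_mul _

theorem mm2_intU (hw : Continuous w) (hc : HasCompactSupport w) (p p' : ℕ) :
    ∫ t : ℝ, (w t : ℂ) * (mm2F c K x p t * starRingEnd ℂ (mm2F c K x p' t)) =
      mm2U c K w x p p' := by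
  have h1 : ∀ t : ℝ, (w t : ℂ) * (mm2F c K x p t * starRingEnd ℂ (mm2F c K x p' t)) =
      ∑ q ∈ Finset.Icc 1 K ×ˢ Finset.Icc 1 K,
        (c p q.1 * starRingEnd ℂ (c p' q.2) * (ev x p ^ q.1 * starRingEnd ℂ (ev x p' ^ q.2))) *
          ((w t : ℂ) * cexp (t * ((q.2 * Real.log p' - q.1 * Real.log p : ℝ) : ℂ) * I)) := by
    intro t
    unfold mm2F
    rw [map_sum, Finset.sum_mul_sum, ← Finset.sum_product', Finset.mul_sum]
    refine Finset.sum_congr rfl fun q _ => ?_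
    have h2 : cexp (t * ((q.2 * Real.log p' - q.1 * Real.log p : ℝ) : ℂ) * I) =
        cexp (-((q.1 * Real.log p * t : ℝ) : ℂ) * I) *
          starRingEnd ℂ (cexp (-((q.2 * Real.log p' * t : ℝ) : ℂ) * I)) := by
      rw [← Complex.exp_conj, ← Complex.exp_add]
      congr 1
      simp only [map_mul, map_neg, Complex.conj_ofReal, Complex.conj_I]
      push_cast
      ring
    rw [h2, map_mul, map_mul]
    ring
  simp_rw [h1]
  rw [integral_finsetSum]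
  · unfold mm2U
    refine Finset.sum_congr rfl fun q _ => ?_
    rw [integral_const_mul, hatw]
    ring
  · intro q _
    exact (mm2_int_exp hw hc _).const_mul _

theorem mm2_intFF (hw : Continuous w) (hc : HasCompactSupport w) :
    ∫ t : ℝ, (w t : ℂ) * FF c P K x t ^ 2 =
      ∑ q ∈ Nat.primesBelow (P + 1) ×ˢ Nat.primesBelow (P + 1), mm2T c K w x q.1 q.2 := by
  have h1 : ∀ t : ℝ, (w t : ℂ) * FF c P K x t ^ 2 =
      ∑ q ∈ Nat.primesBelow (P + 1) ×ˢ Nat.primesBelow (P + 1),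
        (w t : ℂ) * (mm2F c K x q.1 t * mm2F c K x q.2 t) := by
    intro t
    rw [mm2_FF, sq, Finset.sum_mul_sum, ← Finset.sum_product', Finset.mul_sum]
  simp_rw [h1]
  rw [integral_finsetSum]
  · exact Finset.sum_congr rfl fun q _ => mm2_intT c K x hw hc q.1 q.2
  · intro q _
    have h2 : Continuous (fun t : ℝ => (w t : ℂ) * (mm2F c K x q.1 t * mm2F c K x q.2 t)) :=
      (Complex.continuous_ofReal.comp hw).mul ((mm2F_cont c K x _).mul (mm2F_cont c K x _))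
    exact h2.integrable_of_hasCompactSupport ((hc.comp_left Complex.ofReal_zero).mul_right)

theorem mm2_intFc (hw : Continuous w) (hc : HasCompactSupport w) :
    ∫ t : ℝ, (w t : ℂ) * (FF c P K x t * starRingEnd ℂ (FF c P K x t)) =
      ∑ q ∈ Nat.primesBelow (P + 1) ×ˢ Nat.primesBelow (P + 1), mm2U c K w x q.1 q.2 := by
  have h1 : ∀ t : ℝ, (w t : ℂ) * (FF c P K x t * starRingEnd ℂ (FF c P K x t)) =
      ∑ q ∈ Nat.primesBelow (P + 1) ×ˢ Nat.primesBelow (P + 1),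
        (w t : ℂ) * (mm2F c K x q.1 t * starRingEnd ℂ (mm2F c K x q.2 t)) := by
    intro t
    rw [mm2_FF, map_sum, Finset.sum_mul_sum, ← Finset.sum_product', Finset.mul_sum]
  simp_rw [h1]
  rw [integral_finsetSum]
  · exact Finset.sum_congr rfl fun q _ => mm2_intU c K x hw hc q.1 q.2
  · intro q _
    have h2 : Continuous (fun t : ℝ =>
        (w t : ℂ) * (mm2F c K x q.1 t * starRingEnd ℂ (mm2F c K x q.2 t))) :=
      (Complex.continuous_ofReal.comp hw).mul ((mm2F_cont c K x _).mul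
        (Complex.continuous_conj.comp (mm2F_cont c K x _)))
    exact h2.integrable_of_hasCompactSupport ((hc.comp_left Complex.ofReal_zero).mul_right)

theorem mm2_T_symm (p p' : ℕ) : mm2T c K w x p p' = mm2T c K w x p' p := by
  unfold mm2T
  rw [Finset.sum_product, Finset.sum_product, Finset.sum_comm]
  refine Finset.sum_congr rfl fun j _ => Finset.sum_congr rfl fun k _ => ?_
  rw [add_comm (j * Real.log p' : ℝ)]
  ring

end

/-- symmetric double sums -/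
theorem mm2_symm (s : Finset ℕ) (T : ℕ → ℕ → ℂ) (hT : ∀ p p', T p p' = T p' p) :
    ∑ q ∈ s ×ˢ s, T q.1 q.2 =
      ∑ p ∈ s, T p p + 2 * ∑ q ∈ (s ×ˢ s).filter (fun q => q.1 < q.2), T q.1 q.2 := by
  have h1 : ∑ q ∈ s ×ˢ s, T q.1 q.2 = ∑ p ∈ s, T p p + ∑ q ∈ s.offDiag, T q.1 q.2 := by
    rw [← Finset.diag_union_offDiag, Finset.sum_union (Finset.disjoint_diag_offDiag _),
      Finset.sum_diag]
  have h2 : ∑ q ∈ s.offDiag, T q.1 q.2 =
      ∑ q ∈ s.offDiag.filter (fun q => q.1 < q.2), T q.1 q.2 +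
        ∑ q ∈ s.offDiag.filter (fun q => ¬ q.1 < q.2), T q.1 q.2 :=
    (Finset.sum_filter_add_sum_filter_not _ _ _).symm
  have h3 : s.offDiag.filter (fun q => q.1 < q.2) = (s ×ˢ s).filter (fun q => q.1 < q.2) := by
    ext q
    simp only [Finset.mem_filter, Finset.mem_offDiag, Finset.mem_product]
    constructor
    · rintro ⟨⟨a, b, _⟩, d⟩
      exact ⟨⟨a, b⟩, d⟩
    · rintro ⟨⟨a, b⟩, d⟩
      exact ⟨⟨a, b, d.ne⟩, d⟩
  have h4 : ∑ q ∈ s.offDiag.filter (fun q => ¬ q.1 < q.2), T q.1 q.2 =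
      ∑ q ∈ (s ×ˢ s).filter (fun q => q.1 < q.2), T q.1 q.2 := by
    refine Finset.sum_bij' (fun q _ => q.swap) (fun q _ => q.swap) ?_ ?_ ?_ ?_ ?_
    · intro q hq
      simp only [Finset.mem_filter, Finset.mem_offDiag] at hq
      obtain ⟨⟨a, b, d⟩, e⟩ := hq
      simp only [Finset.mem_filter, Finset.mem_product, Prod.fst_swap, Prod.snd_swap]
      exact ⟨⟨b, a⟩, by omega⟩
    · intro q hq
      simp only [Finset.mem_filter, Finset.mem_product] at hq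
      obtain ⟨⟨a, b⟩, e⟩ := hq
      simp only [Finset.mem_filter, Finset.mem_offDiag, Prod.fst_swap, Prod.snd_swap]
      exact ⟨⟨b, a, by omega⟩, by omega⟩
    · intro q _
      exact Prod.swap_swap q
    · intro q _
      exact Prod.swap_swap q
    · intro q _
      simp only [Prod.fst_swap, Prod.snd_swap]
      exact hT _ _
  rw [h1, h2, h4, h3]
  ring

/-! ### The local terms -/

/-- coefficients of `F_p²` -/
noncomputable def mm2a (c : ℕ → ℕ → ℂ) (K p l : ℕ) : ℂ :=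
  ∑ q ∈ (Finset.Icc 1 K ×ˢ Finset.Icc 1 K).filter (fun q => q.1 + q.2 = l), c p q.1 * c p q.2

/-- coefficients of `|F_p|²` -/
noncomputable def mm2b (c : ℕ → ℕ → ℂ) (K p l : ℕ) : ℂ :=
  ∑ q ∈ (Finset.Icc 1 K ×ˢ Finset.Icc 1 K).filter (fun q => q.2 + l = q.1),
    c p q.1 * starRingEnd ℂ (c p q.2)

theorem mm2_locT (c : ℕ → ℕ → ℂ) (K : ℕ) (w : ℝ → ℝ) (x : Ix) (p : ℕ) :
    mm2T c K w x p p = ∑ l ∈ Finset.Icc 2 (2 * K),
      mm2a c K p l * hatw w (-(l * Real.log p)) * ev x p ^ l := by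
  unfold mm2T
  rw [← Finset.sum_fiberwise_of_maps_to (s := Finset.Icc 1 K ×ˢ Finset.Icc 1 K)
    (t := Finset.Icc 2 (2 * K)) (g := fun q => q.1 + q.2) (by
      intro q hq
      simp only [Finset.mem_product, Finset.mem_Icc] at hq ⊢
      omega)]
  refine Finset.sum_congr rfl fun l _ => ?_
  unfold mm2a
  rw [Finset.sum_mul, Finset.sum_mul]
  refine Finset.sum_congr rfl fun q hq => ?_
  have hl := (Finset.mem_filter.1 hq).2
  rw [← hl, pow_add]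
  push_cast
  rw [add_mul]

theorem mm2_zz (x : Ix) {p : ℕ} (hp : p.Prime) {l k : ℕ} (hl : 1 ≤ l) :
    ev x p ^ (k + l) * starRingEnd ℂ (ev x p ^ k) = ev x p ^ l := by
  have h := pm2_ev x hp
  have h1 : ev x p * starRingEnd ℂ (ev x p) = ((‖ev x p‖ ^ 2 : ℝ) : ℂ) := by
    rw [Complex.mul_conj, Complex.normSq_eq_norm_sq]
  have h2 : ev x p ^ (k + l) * starRingEnd ℂ (ev x p ^ k) =
      ev x p ^ l * (ev x p * starRingEnd ℂ (ev x p)) ^ k := by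
    rw [map_pow, pow_add, mul_pow]
    ring
  rw [h2, h1, h]
  split_ifs with h3
  · rw [if_pos h3] at h
    have h4 : ev x p = 0 := by
      have := pow_eq_zero_iff (two_ne_zero) |>.1 h
      exact norm_eq_zero.1 this
    rw [h4, zero_pow (by omega), zero_mul]
  · simp

theorem mm2_locU (c : ℕ → ℕ → ℂ) (K : ℕ) (w : ℝ → ℝ) (x : Ix) {p : ℕ} (hp : p.Prime) :
    (mm2U c K w x p p).re = (∫ t : ℝ, w t) * ((∑ k ∈ Finset.Icc 1 K, ‖c p k‖ ^ 2) -
      if p ∣ x.q then ∑ k ∈ Finset.Icc 1 K, ‖c p k‖ ^ 2 else 0) +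
      2 * (∑ l ∈ Finset.Icc 1 K,
        mm2b c K p l * hatw w (-(l * Real.log p)) * ev x p ^ l).re := by
  set f : ℕ × ℕ → ℂ := fun q => c p q.1 * starRingEnd ℂ (c p q.2) *
    hatw w (q.2 * Real.log p - q.1 * Real.log p) *
      (ev x p ^ q.1 * starRingEnd ℂ (ev x p ^ q.2)) with hf
  have hU : mm2U c K w x p p = ∑ q ∈ Finset.Icc 1 K ×ˢ Finset.Icc 1 K, f q := rfl
  set J := Finset.Icc 1 K with hJ
  -- the diagonal
  have hdiag : ∑ q ∈ J.diag, f q = (((∫ t : ℝ, w t) * ((∑ k ∈ J, ‖c p k‖ ^ 2) -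
      if p ∣ x.q then ∑ k ∈ J, ‖c p k‖ ^ 2 else 0) : ℝ) : ℂ) := by
    rw [Finset.sum_diag]
    have h1 : ∀ k ∈ J, f (k, k) = (((∫ t : ℝ, w t) * (‖c p k‖ ^ 2 -
        if p ∣ x.q then ‖c p k‖ ^ 2 else 0) : ℝ) : ℂ) := by
      intro k hk
      have hk1 : 1 ≤ k := (Finset.mem_Icc.1 hk).1
      simp only [hf]
      rw [sub_self, mm2_hat_zero]
      have h3 : c p k * starRingEnd ℂ (c p k) = ((‖c p k‖ ^ 2 : ℝ) : ℂ) := by
        rw [Complex.mul_conj, Complex.normSq_eq_norm_sq]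
      have h4 : ev x p ^ k * starRingEnd ℂ (ev x p ^ k) = ((‖ev x p‖ ^ 2 : ℝ) : ℂ) ^ k := by
        rw [map_pow, ← mul_pow, Complex.mul_conj, Complex.normSq_eq_norm_sq]
      rw [h3, h4, pm2_ev x hp]
      split_ifs with h
      · rw [Complex.ofReal_zero, zero_pow (by omega), mul_zero, sub_self, mul_zero,
          Complex.ofReal_zero]
      · push_cast
        rw [one_pow]
        ring
    rw [Finset.sum_congr rfl h1, ← Complex.ofReal_sum]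
    congr 1
    rw [← Finset.mul_sum, Finset.sum_sub_distrib]
    split_ifs
    · rfl
    · simp
  -- the part `q.2 < q.1`
  have hlow : ∑ q ∈ (J ×ˢ J).filter (fun q => q.2 < q.1), f q =
      ∑ l ∈ J, mm2b c K p l * hatw w (-(l * Real.log p)) * ev x p ^ l := by
    rw [← Finset.sum_fiberwise_of_maps_to (s := (J ×ˢ J).filter (fun q => q.2 < q.1))
      (t := J) (g := fun q => q.1 - q.2) (by
        intro q hq
        simp only [hJ, Finset.mem_filter, Finset.mem_product, Finset.mem_Icc] at hq ⊢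
        omega)]
    refine Finset.sum_congr rfl fun l hl => ?_
    have hl1 : 1 ≤ l := (Finset.mem_Icc.1 hl).1
    unfold mm2b
    rw [Finset.sum_mul, Finset.sum_mul]
    have hset : ((J ×ˢ J).filter (fun q => q.2 < q.1)).filter (fun q => q.1 - q.2 = l) =
        (J ×ˢ J).filter (fun q => q.2 + l = q.1) := by
      ext q
      simp only [Finset.mem_filter]
      constructor
      · rintro ⟨⟨a, b⟩, d⟩
        exact ⟨a, by omega⟩
      · rintro ⟨a, b⟩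
        exact ⟨⟨a, by omega⟩, by omega⟩
    rw [hset]
    refine Finset.sum_congr rfl fun q hq => ?_
    have hq2 := (Finset.mem_filter.1 hq).2
    simp only [hf]
    rw [← hq2, mm2_zz x hp hl1]
    congr 3
    push_cast
    ring
  -- the part `q.1 < q.2`
  have hup : (∑ q ∈ (J ×ˢ J).filter (fun q => q.1 < q.2), f q).re =
      (∑ q ∈ (J ×ˢ J).filter (fun q => q.2 < q.1), f q).re := by
    rw [Complex.re_sum, Complex.re_sum]
    refine Finset.sum_bij' (fun q _ => q.swap) (fun q _ => q.swap) ?_ ?_ ?_ ?_ ?_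
    · intro q hq
      simp only [Finset.mem_filter, Finset.mem_product] at hq
      simp only [Finset.mem_filter, Finset.mem_product, Prod.fst_swap, Prod.snd_swap]
      exact ⟨⟨hq.1.2, hq.1.1⟩, hq.2⟩
    · intro q hq
      simp only [Finset.mem_filter, Finset.mem_product] at hq
      simp only [Finset.mem_filter, Finset.mem_product, Prod.fst_swap, Prod.snd_swap]
      exact ⟨⟨hq.1.2, hq.1.1⟩, hq.2⟩
    · intro q _
      exact Prod.swap_swap q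
    · intro q _
      exact Prod.swap_swap q
    · intro q _
      have h1 : f q.swap = starRingEnd ℂ (f q) := by
        simp only [hf, Prod.fst_swap, Prod.snd_swap, map_mul, Complex.conj_conj]
        rw [mm2_hat_conj, neg_sub]
        ring
      rw [h1, Complex.conj_re]
  have hsplit : ∑ q ∈ J ×ˢ J, f q = ∑ q ∈ J.diag, f q +
      (∑ q ∈ (J ×ˢ J).filter (fun q => q.2 < q.1), f q +
        ∑ q ∈ (J ×ˢ J).filter (fun q => q.1 < q.2), f q) := by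
    rw [← Finset.diag_union_offDiag, Finset.sum_union (Finset.disjoint_diag_offDiag _),
      Finset.diag_union_offDiag]
    congr 1
    rw [← Finset.sum_filter_add_sum_filter_not J.offDiag (fun q => q.2 < q.1)]
    congr 1
    · refine Finset.sum_congr ?_ fun _ _ => rfl
      ext q
      simp only [Finset.mem_filter, Finset.mem_offDiag, Finset.mem_product]
      constructor
      · rintro ⟨⟨a, b, _⟩, d⟩
        exact ⟨⟨a, b⟩, d⟩
      · rintro ⟨⟨a, b⟩, d⟩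
        exact ⟨⟨a, b, by omega⟩, d⟩
    · refine Finset.sum_congr ?_ fun _ _ => rfl
      ext q
      simp only [Finset.mem_filter, Finset.mem_offDiag, Finset.mem_product]
      constructor
      · rintro ⟨⟨a, b, e⟩, d⟩
        exact ⟨⟨a, b⟩, by omega⟩
      · rintro ⟨⟨a, b⟩, d⟩
        exact ⟨⟨a, b, by omega⟩, by omega⟩
  rw [hU, hsplit, Complex.add_re, Complex.add_re, hup, hdiag, Complex.ofReal_re, hlow]
  ring

/-! ### Bounds for the coefficients -/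

section
variable {c : ℕ → ℕ → ℂ} {v : ℕ → ℝ} {P K : ℕ} {C₀ : ℝ}

theorem mm2_cc (H : MB c v P K C₀) {p : ℕ} (hp : p.Prime) {j k : ℕ} (hj : 1 ≤ j) (hk : 1 ≤ k) :
    ‖c p j‖ * ‖c p k‖ ≤ v p * (1 / ((j : ℝ) * k)) := by
  have hj0 : (0 : ℝ) < j := by exact_mod_cast hj
  have hk0 : (0 : ℝ) < k := by exact_mod_cast hk
  have h1 := H.c_le p hp j hj
  have h2 := H.c_le p hp k hk
  have hv := H.w_nonneg p
  have h3 : (‖c p j‖ * ‖c p k‖) ^ 2 ≤ (v p * (1 / ((j : ℝ) * k))) ^ 2 := by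
    calc (‖c p j‖ * ‖c p k‖) ^ 2 = ‖c p j‖ ^ 2 * ‖c p k‖ ^ 2 := by ring
      _ ≤ (v p / (j : ℝ) ^ 2) * (v p / (k : ℝ) ^ 2) :=
          mul_le_mul h1 h2 (by positivity) (by positivity)
      _ = (v p * (1 / ((j : ℝ) * k))) ^ 2 := by
          field_simp
  exact (pow_le_pow_iff_left₀ (by positivity) (by positivity) two_ne_zero).1 h3

theorem mm2_a_le (H : MB c v P K C₀) {p : ℕ} (hp : p.Prime) (l : ℕ) :
    ‖mm2a c K p l‖ ≤ v p * ∑ q ∈ (Finset.Icc 1 K ×ˢ Finset.Icc 1 K).filter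
      (fun q => q.1 + q.2 = l), 1 / ((q.1 : ℝ) * q.2) := by
  unfold mm2a
  refine (norm_sum_le _ _).trans ?_
  rw [Finset.mul_sum]
  refine Finset.sum_le_sum fun q hq => ?_
  have h := (Finset.mem_filter.1 hq).1
  rw [Finset.mem_product, Finset.mem_Icc, Finset.mem_Icc] at h
  rw [norm_mul]
  exact mm2_cc H hp h.1.1 h.2.1

theorem mm2_b_le (H : MB c v P K C₀) {p : ℕ} (hp : p.Prime) (l : ℕ) :
    ‖mm2b c K p l‖ ≤ v p * ∑ k ∈ Finset.Icc 1 K, 1 / ((k : ℝ) * (k + l)) := by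
  unfold mm2b
  refine (norm_sum_le _ _).trans ?_
  have hv := H.w_nonneg p
  have h1 : ∑ q ∈ (Finset.Icc 1 K ×ˢ Finset.Icc 1 K).filter (fun q => q.2 + l = q.1),
      ‖c p q.1 * starRingEnd ℂ (c p q.2)‖ ≤
      ∑ q ∈ (Finset.Icc 1 K ×ˢ Finset.Icc 1 K).filter (fun q => q.2 + l = q.1),
        v p * (1 / ((q.2 : ℝ) * (q.2 + l))) := by
    refine Finset.sum_le_sum fun q hq => ?_
    obtain ⟨h, h2⟩ := Finset.mem_filter.1 hq
    rw [Finset.mem_product, Finset.mem_Icc, Finset.mem_Icc] at h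
    rw [norm_mul, RCLike.norm_conj]
    refine (mm2_cc H hp h.1.1 h.2.1).trans (le_of_eq ?_)
    rw [← h2]
    push_cast
    ring
  refine h1.trans ?_
  rw [← Finset.mul_sum]
  refine mul_le_mul_of_nonneg_left ?_ hv
  have h2 : ∑ q ∈ (Finset.Icc 1 K ×ˢ Finset.Icc 1 K).filter (fun q => q.2 + l = q.1),
      1 / ((q.2 : ℝ) * (q.2 + l)) =
      ∑ k ∈ ((Finset.Icc 1 K ×ˢ Finset.Icc 1 K).filter (fun q => q.2 + l = q.1)).image Prod.snd,
        1 / ((k : ℝ) * (k + l)) := by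
    rw [Finset.sum_image]
    intro q hq q' hq' h
    have e1 := (Finset.mem_filter.1 hq).2
    have e2 := (Finset.mem_filter.1 hq').2
    refine Prod.ext ?_ h
    rw [← e1, ← e2, h]
  rw [h2]
  refine Finset.sum_le_sum_of_subset_of_nonneg ?_ fun k _ _ => by positivity
  intro k hk
  rw [Finset.mem_image] at hk
  obtain ⟨q, hq, rfl⟩ := hk
  exact (Finset.mem_product.1 (Finset.mem_filter.1 hq).1).2

theorem mm2_sumv (H : MB c v P K C₀) :
    ∑ p ∈ Nat.primesBelow (P + 1), v p ≤ C₀ * VF c P K := by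
  unfold VF
  rw [Finset.mul_sum]
  exact Finset.sum_le_sum fun p hp => H.w_V p (Nat.prime_of_mem_primesBelow hp)

theorem mm2_hat_le {w : ℝ → ℝ} {C₁ : ℝ} (hC1 : 0 ≤ C₁) (hd : ∀ u, ‖hatw w u‖ ≤ C₁ / (1 + u ^ 2))
    (u : ℝ) : ‖hatw w u‖ ^ 2 ≤ C₁ ^ 2 := by
  refine pow_le_pow_left₀ (norm_nonneg _) ((hd u).trans ?_) 2
  exact div_le_self hC1 (by nlinarith [sq_nonneg u])

/-- sums of the diagonal coefficients -/
theorem mm2_sumdiag (H : MB c v P K C₀) (hC0 : 0 ≤ C₀) {w : ℝ → ℝ} {C₁ : ℝ} (hC1 : 0 ≤ C₁)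
    (hd : ∀ u, ‖hatw w u‖ ≤ C₁ / (1 + u ^ 2)) {Cn : ℝ} (hCn : 0 ≤ Cn) (L : Finset ℕ)
    (r : ℕ → ℝ) (A : ℕ → ℕ → ℂ) (hA : ∀ p, p.Prime → ∀ l, ‖A p l‖ ≤ v p * r l)
    (hr : ∑ l ∈ L, r l ^ 2 ≤ Cn) :
    ∑ i ∈ Nat.primesBelow (P + 1) ×ˢ L, ‖A i.1 i.2 * hatw w (-(i.2 * Real.log i.1))‖ ^ 2 ≤
      C₁ ^ 2 * Cn * C₀ ^ 2 * VF c P K := by
  rw [Finset.sum_product]
  have h1 : ∀ p ∈ Nat.primesBelow (P + 1),
      ∑ l ∈ L, ‖A p l * hatw w (-(l * Real.log p))‖ ^ 2 ≤ C₁ ^ 2 * Cn * C₀ * v p := by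
    intro p hp
    have hpp := Nat.prime_of_mem_primesBelow hp
    have hv := H.w_nonneg p
    have hv2 := H.w_le p hpp
    calc ∑ l ∈ L, ‖A p l * hatw w (-(l * Real.log p))‖ ^ 2
        ≤ ∑ l ∈ L, (v p) ^ 2 * C₁ ^ 2 * r l ^ 2 := by
          refine Finset.sum_le_sum fun l _ => ?_
          rw [norm_mul, mul_pow]
          have e1 := hA p hpp l
          have e2 : ‖A p l‖ ^ 2 ≤ (v p * r l) ^ 2 := pow_le_pow_left₀ (norm_nonneg _) e1 2
          calc ‖A p l‖ ^ 2 * ‖hatw w (-(l * Real.log p))‖ ^ 2 ≤ (v p * r l) ^ 2 * C₁ ^ 2 :=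
                mul_le_mul e2 (mm2_hat_le hC1 hd _) (by positivity) (by positivity)
            _ = _ := by ring
      _ = (v p) ^ 2 * C₁ ^ 2 * ∑ l ∈ L, r l ^ 2 := by rw [Finset.mul_sum]
      _ ≤ (v p) ^ 2 * C₁ ^ 2 * Cn := mul_le_mul_of_nonneg_left hr (by positivity)
      _ ≤ (C₀ * v p) * C₁ ^ 2 * Cn := by
          have : (v p) ^ 2 ≤ C₀ * v p := by nlinarith
          gcongr
      _ = _ := by ring
  refine (Finset.sum_le_sum h1).trans ?_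
  rw [← Finset.mul_sum]
  have h2 := mm2_sumv H
  calc C₁ ^ 2 * Cn * C₀ * ∑ p ∈ Nat.primesBelow (P + 1), v p
      ≤ C₁ ^ 2 * Cn * C₀ * (C₀ * VF c P K) := mul_le_mul_of_nonneg_left h2 (by positivity)
    _ = _ := by ring

theorem mm2_inv_sq (K : ℕ) : ∑ k ∈ Finset.Icc 1 K, 1 / (k : ℝ) ^ 2 ≤ 2 := by
  rcases Nat.eq_zero_or_pos K with h | h
  · subst h
    simp
  · have h1 : ∀ n : ℕ, ∑ k ∈ Finset.Icc 1 (n + 1), 1 / (k : ℝ) ^ 2 ≤ 2 - 1 / ((n : ℝ) + 1) := by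
      intro n
      induction n with
      | zero => norm_num
      | succ n ih =>
        rw [Finset.sum_Icc_succ_top (by omega)]
        have hn : (0 : ℝ) ≤ n := Nat.cast_nonneg n
        have e : 1 / (((n + 1 + 1 : ℕ) : ℝ)) ^ 2 ≤ 1 / ((n : ℝ) + 1) - 1 / (((n + 1 : ℕ) : ℝ) + 1) := by
          push_cast
          rw [div_sub_div _ _ (by positivity) (by positivity), div_le_div_iff₀ (by positivity)
            (by positivity)]
          nlinarith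
        linarith
    obtain ⟨n, rfl⟩ := Nat.exists_eq_succ_of_ne_zero h.ne'
    have h2 := h1 n
    have h3 : (0 : ℝ) < 1 / ((n : ℝ) + 1) := by positivity
    linarith

/-- double sum with a kernel -/
theorem mm2_double (H : MB c v P K C₀) (hC0 : 0 ≤ C₀) {w : ℝ → ℝ} {C₁ : ℝ}
    (hhat : ∀ u, ‖hatw w u‖ ^ 2 ≤ C₁ ^ 2 / (1 + u ^ 2)) (y : ℕ → ℕ → ℝ)
    (u : ℕ × ℕ → ℕ × ℕ → ℝ)
    (hu : ∀ q r, (r.2 * Real.log q.2 - y q.1 r.1) ^ 2 = u q r ^ 2) :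
    ∑ q ∈ Nat.primesBelow (P + 1) ×ˢ Nat.primesBelow (P + 1),
      ∑ r ∈ Finset.Icc 1 K ×ˢ Finset.Icc 1 K,
        ‖c q.1 r.1‖ ^ 2 * ‖c q.2 r.2‖ ^ 2 * ‖hatw w (u q r)‖ ^ 2 ≤
      2 * C₁ ^ 2 * C₀ * VF c P K := by
  rw [Finset.sum_product]
  have h1 : ∀ p ∈ Nat.primesBelow (P + 1), ∑ p' ∈ Nat.primesBelow (P + 1),
      ∑ r ∈ Finset.Icc 1 K ×ˢ Finset.Icc 1 K,
        ‖c p r.1‖ ^ 2 * ‖c p' r.2‖ ^ 2 * ‖hatw w (u (p, p') r)‖ ^ 2 ≤
      2 * C₁ ^ 2 * C₀ * ∑ j ∈ Finset.Icc 1 K, ‖c p j‖ ^ 2 := by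
    intro p _
    rw [Finset.sum_comm, Finset.sum_product, Finset.mul_sum]
    refine Finset.sum_le_sum fun j _ => ?_
    have h2 : ∀ k ∈ Finset.Icc 1 K, ∑ p' ∈ Nat.primesBelow (P + 1),
        ‖c p j‖ ^ 2 * ‖c p' k‖ ^ 2 * ‖hatw w (u (p, p') (j, k))‖ ^ 2 ≤
        C₁ ^ 2 * C₀ * ‖c p j‖ ^ 2 * (1 / (k : ℝ) ^ 2) := by
      intro k hk
      have hk1 := (Finset.mem_Icc.1 hk).1
      have hk0 : (0 : ℝ) < k := by exact_mod_cast hk1
      calc ∑ p' ∈ Nat.primesBelow (P + 1),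
            ‖c p j‖ ^ 2 * ‖c p' k‖ ^ 2 * ‖hatw w (u (p, p') (j, k))‖ ^ 2
          ≤ ∑ p' ∈ Nat.primesBelow (P + 1), ‖c p j‖ ^ 2 * (1 / (k : ℝ) ^ 2) * C₁ ^ 2 *
              (v p' / (1 + (k * Real.log p' - y p j) ^ 2)) := by
            refine Finset.sum_le_sum fun p' hp' => ?_
            have hpp := Nat.prime_of_mem_primesBelow hp'
            have e1 := H.c_le p' hpp k hk1
            have e2 := hhat (u (p, p') (j, k))
            rw [← hu (p, p') (j, k)] at e2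
            have hv := H.w_nonneg p'
            calc ‖c p j‖ ^ 2 * ‖c p' k‖ ^ 2 * ‖hatw w (u (p, p') (j, k))‖ ^ 2
                ≤ ‖c p j‖ ^ 2 * (v p' / (k : ℝ) ^ 2) *
                  (C₁ ^ 2 / (1 + (k * Real.log p' - y p j) ^ 2)) := by
                  refine mul_le_mul (mul_le_mul_of_nonneg_left e1 (by positivity)) e2
                    (by positivity) (by positivity)
              _ = _ := by ring
        _ ≤ ‖c p j‖ ^ 2 * (1 / (k : ℝ) ^ 2) * C₁ ^ 2 * C₀ := by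
            rw [← Finset.mul_sum]
            exact mul_le_mul_of_nonneg_left (H.w_sum k hk1 (y p j)) (by positivity)
        _ = _ := by ring
    refine (Finset.sum_le_sum h2).trans ?_
    rw [← Finset.mul_sum]
    calc C₁ ^ 2 * C₀ * ‖c p j‖ ^ 2 * ∑ k ∈ Finset.Icc 1 K, 1 / (k : ℝ) ^ 2
        ≤ C₁ ^ 2 * C₀ * ‖c p j‖ ^ 2 * 2 :=
          mul_le_mul_of_nonneg_left (mm2_inv_sq K) (by positivity)
      _ = _ := by ring
  refine (Finset.sum_le_sum h1).trans ?_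
  rw [← Finset.mul_sum]
  exact le_rfl

end

/-- the part of the variance at the primes dividing the modulus -/
noncomputable def mm2D (c : ℕ → ℕ → ℂ) (P K : ℕ) (x : Ix) : ℝ :=
  ∑ p ∈ Nat.primesBelow (P + 1), if p ∣ x.q then ∑ k ∈ Finset.Icc 1 K, ‖c p k‖ ^ 2 else 0

theorem mm2_D_nonneg (c : ℕ → ℕ → ℂ) (P K : ℕ) (x : Ix) : 0 ≤ mm2D c P K x := by
  unfold mm2D
  refine Finset.sum_nonneg fun p _ => ?_
  split_ifs
  · positivity
  · exact le_rfl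

theorem mm2_D_le (c : ℕ → ℕ → ℂ) (P K : ℕ) (x : Ix) : mm2D c P K x ≤ VF c P K := by
  unfold mm2D VF
  refine Finset.sum_le_sum fun p _ => ?_
  split_ifs
  · exact le_rfl
  · positivity

theorem mm2_sumD {c : ℕ → ℕ → ℂ} {v : ℕ → ℝ} {P K : ℕ} {C₀ : ℝ} (H : MB c v P K C₀)
    (N Q : ℕ) : ∑ x ∈ pairs N Q, mm2D c P K x ≤ 10 * C₀ * Q ^ 2 := by
  unfold mm2D
  rw [Finset.sum_comm]
  have e1 : ∀ p ∈ Nat.primesBelow (P + 1),
      ∑ x ∈ pairs N Q, (if p ∣ x.q then ∑ k ∈ Finset.Icc 1 K, ‖c p k‖ ^ 2 else 0) ≤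
      10 * Q ^ 2 * (v p / (1 + ((1 : ℕ) * Real.log p - 0) ^ 2)) := by
    intro p hp
    have hpp := Nat.prime_of_mem_primesBelow hp
    have hp0 : (0 : ℝ) < p := by exact_mod_cast hpp.pos
    have hv := H.w_nonneg p
    rw [← Finset.sum_filter, Finset.sum_const, nsmul_eq_mul]
    have h1 := card_pairs_dvd_pr N Q p hpp.pos
    have h2 : ∑ k ∈ Finset.Icc 1 K, ‖c p k‖ ^ 2 ≤ 2 * v p := by
      calc ∑ k ∈ Finset.Icc 1 K, ‖c p k‖ ^ 2 ≤ ∑ k ∈ Finset.Icc 1 K, v p * (1 / (k : ℝ) ^ 2) := by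
            refine Finset.sum_le_sum fun k hk => ?_
            refine (H.c_le p hpp k (Finset.mem_Icc.1 hk).1).trans (le_of_eq ?_)
            ring
        _ = v p * ∑ k ∈ Finset.Icc 1 K, 1 / (k : ℝ) ^ 2 := by rw [Finset.mul_sum]
        _ ≤ v p * 2 := mul_le_mul_of_nonneg_left (mm2_inv_sq K) hv
        _ = _ := by ring
    have hlp : 0 ≤ Real.log p := Real.log_natCast_nonneg p
    have h3 := pm2_log hpp.pos
    calc ((((pairs N Q).filter (fun x => p ∣ x.q)).card : ℝ)) * ∑ k ∈ Finset.Icc 1 K, ‖c p k‖ ^ 2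
        ≤ (Q ^ 2 / p) * (2 * v p) := mul_le_mul h1 h2 (by positivity) (by positivity)
      _ = Q ^ 2 * (2 * v p) * (1 / p) := by ring
      _ ≤ Q ^ 2 * (2 * v p) * (5 / (1 + ((1 : ℕ) * Real.log p - 0) ^ 2)) := by
          apply mul_le_mul_of_nonneg_left _ (by positivity)
          rw [div_le_div_iff₀ hp0 (by positivity)]
          have hp1 : (1 : ℝ) ≤ p := by exact_mod_cast hpp.one_le
          push_cast
          nlinarith
      _ = _ := by ring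
  refine (Finset.sum_le_sum e1).trans ?_
  rw [← Finset.mul_sum]
  calc 10 * (Q : ℝ) ^ 2 * _ ≤ 10 * (Q : ℝ) ^ 2 * C₀ :=
        mul_le_mul_of_nonneg_left (H.w_sum 1 le_rfl 0) (by positivity)
    _ = _ := by ring

/-! ### The four sums -/

section
variable (c : ℕ → ℕ → ℂ) (P K : ℕ) (w : ℝ → ℝ)

/-- the diagonal part of `∫ w F²` -/
noncomputable def mm2SA (x : Ix) : ℂ :=
  ∑ i ∈ Nat.primesBelow (P + 1) ×ˢ Finset.Icc 2 (2 * K),
    mm2a c K i.1 i.2 * hatw w (-(i.2 * Real.log i.1)) * ev x (i.1 ^ i.2) *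
      starRingEnd ℂ (ev x 1)

/-- the non-constant diagonal part of `∫ w |F|²` -/
noncomputable def mm2SD (x : Ix) : ℂ :=
  ∑ i ∈ Nat.primesBelow (P + 1) ×ˢ Finset.Icc 1 K,
    mm2b c K i.1 i.2 * hatw w (-(i.2 * Real.log i.1)) * ev x (i.1 ^ i.2) *
      starRingEnd ℂ (ev x 1)

/-- the off-diagonal part of `∫ w F²` -/
noncomputable def mm2SB (x : Ix) : ℂ :=
  ∑ i ∈ ((Nat.primesBelow (P + 1) ×ˢ Nat.primesBelow (P + 1)).filter (fun q => q.1 < q.2)) ×ˢ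
    (Finset.Icc 1 K ×ˢ Finset.Icc 1 K),
    2 * (c i.1.1 i.2.1 * c i.1.2 i.2.2) *
      hatw w (-(i.2.1 * Real.log i.1.1 + i.2.2 * Real.log i.1.2)) *
      ev x (i.1.1 ^ i.2.1 * i.1.2 ^ i.2.2) * starRingEnd ℂ (ev x 1)

/-- the off-diagonal part of `∫ w |F|²` -/
noncomputable def mm2SC (x : Ix) : ℂ :=
  ∑ i ∈ (Nat.primesBelow (P + 1)).offDiag ×ˢ (Finset.Icc 1 K ×ˢ Finset.Icc 1 K),
    c i.1.1 i.2.1 * starRingEnd ℂ (c i.1.2 i.2.2) *
      hatw w (i.2.2 * Real.log i.1.2 - i.2.1 * Real.log i.1.1) *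
      ev x (i.1.1 ^ i.2.1) * starRingEnd ℂ (ev x (i.1.2 ^ i.2.2))

theorem mm2_eqT (x : Ix) :
    ∑ q ∈ Nat.primesBelow (P + 1) ×ˢ Nat.primesBelow (P + 1), mm2T c K w x q.1 q.2 =
      mm2SA c P K w x + mm2SB c P K w x := by
  rw [mm2_symm _ (mm2T c K w x) (mm2_T_symm c K x)]
  congr 1
  · unfold mm2SA
    rw [Finset.sum_product]
    refine Finset.sum_congr rfl fun p _ => ?_
    rw [mm2_locT]
    refine Finset.sum_congr rfl fun l _ => ?_
    rw [mm2_ev_pow, mm2_ev_one, map_one, mul_one]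
  · unfold mm2SB
    rw [Finset.sum_product, Finset.mul_sum]
    refine Finset.sum_congr rfl fun q _ => ?_
    unfold mm2T
    rw [Finset.mul_sum]
    refine Finset.sum_congr rfl fun r _ => ?_
    rw [mm2_ev_mul, mm2_ev_pow, mm2_ev_pow, mm2_ev_one, map_one, mul_one]
    ring

theorem mm2_eqU (x : Ix) :
    (∑ q ∈ Nat.primesBelow (P + 1) ×ˢ Nat.primesBelow (P + 1), mm2U c K w x q.1 q.2).re =
      (∫ t : ℝ, w t) * (VF c P K - mm2D c P K x) + 2 * (mm2SD c P K w x).re +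
        (mm2SC c P K w x).re := by
  rw [← Finset.diag_union_offDiag, Finset.sum_union (Finset.disjoint_diag_offDiag _),
    Finset.sum_diag, Complex.add_re]
  congr 1
  · rw [Complex.re_sum]
    have h1 : ∀ p ∈ Nat.primesBelow (P + 1), (mm2U c K w x p p).re =
        (∫ t : ℝ, w t) * ((∑ k ∈ Finset.Icc 1 K, ‖c p k‖ ^ 2) -
          if p ∣ x.q then ∑ k ∈ Finset.Icc 1 K, ‖c p k‖ ^ 2 else 0) +
        2 * (∑ l ∈ Finset.Icc 1 K,
          mm2b c K p l * hatw w (-(l * Real.log p)) * ev x p ^ l).re :=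
      fun p hp => mm2_locU c K w x (Nat.prime_of_mem_primesBelow hp)
    rw [Finset.sum_congr rfl h1, Finset.sum_add_distrib, ← Finset.mul_sum, ← Finset.mul_sum,
      Finset.sum_sub_distrib, ← Complex.re_sum]
    congr 3
    unfold mm2SD
    rw [Finset.sum_product]
    refine Finset.sum_congr rfl fun p _ => ?_
    refine Finset.sum_congr rfl fun l _ => ?_
    rw [mm2_ev_pow, mm2_ev_one, map_one, mul_one]
  · congr 1
    unfold mm2SC
    rw [Finset.sum_product]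
    refine Finset.sum_congr rfl fun q _ => ?_
    unfold mm2U
    refine Finset.sum_congr rfl fun r _ => ?_
    rw [mm2_ev_pow, mm2_ev_pow]
    ring

variable {w}

theorem mm2_key (hw : Continuous w) (hc : HasCompactSupport w) (x : Ix) :
    ((∫ t : ℝ, w t * (FF c P K x t).re ^ 2) - (∫ t : ℝ, w t) * VF c P K / 2) ^ 2 ≤
      5 / 4 * (‖mm2SA c P K w x‖ ^ 2 + ‖mm2SB c P K w x‖ ^ 2 + ‖mm2SC c P K w x‖ ^ 2 +
        4 * ‖mm2SD c P K w x‖ ^ 2 + (∫ t : ℝ, w t) ^ 2 * (VF c P K * mm2D c P K x)) := by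
  have hZ := mm2_FF_cont c P K x
  have hwc : Continuous (fun t => (w t : ℂ)) := Complex.continuous_ofReal.comp hw
  have hcc : HasCompactSupport (fun t => (w t : ℂ)) := hc.comp_left Complex.ofReal_zero
  have iA : Integrable (fun t : ℝ => (w t : ℂ) * FF c P K x t ^ 2) :=
    (hwc.mul (hZ.pow 2)).integrable_of_hasCompactSupport hcc.mul_right
  have iB : Integrable (fun t : ℝ => (w t : ℂ) *
      (FF c P K x t * starRingEnd ℂ (FF c P K x t))) :=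
    (hwc.mul (hZ.mul (Complex.continuous_conj.comp hZ))).integrable_of_hasCompactSupport
      hcc.mul_right
  have eA : ∫ t : ℝ, ((w t : ℂ) * FF c P K x t ^ 2).re =
      (∫ t : ℝ, (w t : ℂ) * FF c P K x t ^ 2).re := Complex.reCLM.integral_comp_comm iA
  have eB : ∫ t : ℝ, ((w t : ℂ) * (FF c P K x t * starRingEnd ℂ (FF c P K x t))).re =
      (∫ t : ℝ, (w t : ℂ) * (FF c P K x t * starRingEnd ℂ (FF c P K x t))).re :=
    Complex.reCLM.integral_comp_comm iB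
  have h1 : ∫ t : ℝ, w t * (FF c P K x t).re ^ 2 =
      ((∫ t : ℝ, (w t : ℂ) * FF c P K x t ^ 2).re +
      (∫ t : ℝ, (w t : ℂ) * (FF c P K x t * starRingEnd ℂ (FF c P K x t))).re) / 2 := by
    have jA : Integrable (fun t : ℝ => ((w t : ℂ) * FF c P K x t ^ 2).re) := iA.re
    have jB : Integrable (fun t : ℝ => ((w t : ℂ) *
      (FF c P K x t * starRingEnd ℂ (FF c P K x t))).re) := iB.re
    rw [← eA, ← eB, ← integral_add jA jB, ← integral_div]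
    congr 1
    ext t
    rw [Complex.re_ofReal_mul, Complex.re_ofReal_mul]
    set z := FF c P K x t
    rw [Complex.mul_conj, Complex.ofReal_re, Complex.normSq_apply, sq z, Complex.mul_re]
    ring
  rw [mm2_intFF c P K x hw hc, mm2_intFc c P K x hw hc, mm2_eqT, mm2_eqU, Complex.add_re] at h1
  rw [h1]
  have hre : ∀ z : ℂ, z.re ^ 2 ≤ ‖z‖ ^ 2 := by
    intro z
    rw [← sq_abs z.re]
    exact pow_le_pow_left₀ (abs_nonneg _) (Complex.abs_re_le_norm z) 2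
  have a1 := hre (mm2SA c P K w x)
  have a2 := hre (mm2SB c P K w x)
  have a3 := hre (mm2SC c P K w x)
  have a4 := hre (mm2SD c P K w x)
  have a5 : mm2D c P K x ^ 2 ≤ VF c P K * mm2D c P K x := by
    have e1 := mm2_D_nonneg c P K x
    have e2 := mm2_D_le c P K x
    nlinarith
  generalize (mm2SA c P K w x).re = s1 at *
  generalize (mm2SB c P K w x).re = s2 at *
  generalize (mm2SC c P K w x).re = s3 at *
  generalize (mm2SD c P K w x).re = s4 at *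
  generalize ‖mm2SA c P K w x‖ = n1 at *
  generalize ‖mm2SB c P K w x‖ = n2 at *
  generalize ‖mm2SC c P K w x‖ = n3 at *
  generalize ‖mm2SD c P K w x‖ = n4 at *
  generalize (∫ t : ℝ, w t) = W at *
  generalize mm2D c P K x = m at *
  generalize VF c P K = V at *
  have a6 : W ^ 2 * m ^ 2 ≤ W ^ 2 * (V * m) := mul_le_mul_of_nonneg_left a5 (sq_nonneg W)
  have e : (s1 + s2 + (W * (V - m) + 2 * s4 + s3)) / 2 - W * V / 2 =
      (s1 + s2 + s3 + 2 * s4 - W * m) / 2 := by ring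
  rw [e]
  have key : ((s1 + s2 + s3 + 2 * s4 - W * m) / 2) ^ 2 ≤
      5 / 4 * (s1 ^ 2 + s2 ^ 2 + s3 ^ 2 + 4 * s4 ^ 2 + W ^ 2 * m ^ 2) := by
    nlinarith [sq_nonneg (s1 - s2), sq_nonneg (s1 - s3), sq_nonneg (s1 - 2 * s4),
      sq_nonneg (s1 + W * m), sq_nonneg (s2 - s3), sq_nonneg (s2 - 2 * s4),
      sq_nonneg (s2 + W * m), sq_nonneg (s3 - 2 * s4), sq_nonneg (s3 + W * m),
      sq_nonneg (2 * s4 + W * m)]
  refine key.trans ?_
  linarith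

end

/-! ### Orthogonality for the four sums -/

theorem mm2_inj1 {p p' : ℕ} (hp : p.Prime) (hp' : p'.Prime) {l l' : ℕ} (hl : 1 ≤ l)
    (h : p ^ l = p' ^ l') : p = p' ∧ l = l' := by
  have h1 : p ∣ p' ^ l' := h ▸ dvd_pow_self p (by omega)
  have h2 : p = p' := (Nat.prime_dvd_prime_iff_eq hp hp').1 (hp.dvd_of_dvd_pow h1)
  subst h2
  exact ⟨rfl, Nat.pow_right_injective hp.two_le h⟩

theorem mm2_inj2 {a b s t : ℕ} (ha : a.Prime) (hb : b.Prime) (hs : s.Prime) (ht : t.Prime)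
    (hab : a < b) (hst : s < t) {i j k l : ℕ} (hi : 1 ≤ i) (hj : 1 ≤ j) (hk : 1 ≤ k)
    (hl : 1 ≤ l) (h : a ^ i * b ^ j = s ^ k * t ^ l) :
    a = s ∧ b = t ∧ i = k ∧ j = l := by
  have h1 : a = s ∨ a = t := mm2_dvd ha hs ht
    (h ▸ Dvd.dvd.mul_right (dvd_pow_self a (by omega)) _)
  have h2 : b = s ∨ b = t := mm2_dvd hb hs ht
    (h ▸ Dvd.dvd.mul_left (dvd_pow_self b (by omega)) _)
  have h3 : s = a ∨ s = b := mm2_dvd hs ha hb
    (h.symm ▸ Dvd.dvd.mul_right (dvd_pow_self s (by omega)) _)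
  have e1 : a = s := by omega
  have e2 : b = t := by omega
  subst e1 e2
  obtain ⟨r1, r2⟩ := mm2_pp ha hb hab.ne h
  exact ⟨rfl, rfl, r1, r2⟩

theorem mm2_inj3 {a b s t : ℕ} (ha : a.Prime) (hb : b.Prime) (hs : s.Prime) (ht : t.Prime)
    (hab : a ≠ b) (hst : s ≠ t) {i j k l : ℕ} (hi : 1 ≤ i) (hk : 1 ≤ k) (hj : 1 ≤ j)
    (hl : 1 ≤ l) (h : a ^ i * t ^ l = s ^ k * b ^ j) :
    a = s ∧ b = t ∧ i = k ∧ j = l := by
  have h1 : a = s ∨ a = b := mm2_dvd ha hs hb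
    (h ▸ Dvd.dvd.mul_right (dvd_pow_self a (by omega)) _)
  have e1 : a = s := h1.resolve_right hab
  have h2 : b = a ∨ b = t := mm2_dvd hb ha ht
    (h.symm ▸ Dvd.dvd.mul_left (dvd_pow_self b (by omega)) _)
  have e2 : b = t := h2.resolve_left (Ne.symm hab)
  subst e1 e2
  obtain ⟨r1, r2⟩ := mm2_pp ha hb hab h
  exact ⟨rfl, rfl, r1, r2.symm⟩

section
variable (N : ℕ) (c : ℕ → ℕ → ℂ) (P K : ℕ) (w : ℝ → ℝ)

theorem mm2_oD (L : Finset ℕ) (hL : ∀ l ∈ L, 1 ≤ l) (A : ℕ → ℕ → ℂ) :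
    ∃ Q₀ : ℕ, ∀ Q : ℕ, Q₀ ≤ Q →
      ∑ x ∈ pairs N Q, ‖∑ i ∈ Nat.primesBelow (P + 1) ×ˢ L,
        A i.1 i.2 * hatw w (-(i.2 * Real.log i.1)) * ev x (i.1 ^ i.2) *
          starRingEnd ℂ (ev x 1)‖ ^ 2 ≤
        ((∑ i ∈ Nat.primesBelow (P + 1) ×ˢ L,
          ‖A i.1 i.2 * hatw w (-(i.2 * Real.log i.1))‖ ^ 2) + 1) * Q ^ 2 := by
  refine mm2_orth N _ (fun i : ℕ × ℕ => A i.1 i.2 * hatw w (-(i.2 * Real.log i.1)))
    (fun i => i.1 ^ i.2) (fun _ => 1) ?_ (fun _ _ => one_pos) ?_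
  · intro i hi
    rw [Finset.mem_product] at hi
    exact pow_pos (Nat.prime_of_mem_primesBelow hi.1).pos _
  · intro i hi j hj hij
    rw [Finset.mem_product] at hi hj
    simp only [mul_one] at hij
    obtain ⟨r1, r2⟩ := mm2_inj1 (Nat.prime_of_mem_primesBelow hi.1)
      (Nat.prime_of_mem_primesBelow hj.1) (hL _ hi.2) hij
    exact Prod.ext r1 r2

theorem mm2_oB :
    ∃ Q₀ : ℕ, ∀ Q : ℕ, Q₀ ≤ Q → ∑ x ∈ pairs N Q, ‖mm2SB c P K w x‖ ^ 2 ≤
      ((∑ i ∈ ((Nat.primesBelow (P + 1) ×ˢ Nat.primesBelow (P + 1)).filter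
        (fun q => q.1 < q.2)) ×ˢ (Finset.Icc 1 K ×ˢ Finset.Icc 1 K),
        ‖2 * (c i.1.1 i.2.1 * c i.1.2 i.2.2) *
          hatw w (-(i.2.1 * Real.log i.1.1 + i.2.2 * Real.log i.1.2))‖ ^ 2) + 1) * Q ^ 2 := by
  unfold mm2SB
  refine mm2_orth N _ (fun i : (ℕ × ℕ) × (ℕ × ℕ) => 2 * (c i.1.1 i.2.1 * c i.1.2 i.2.2) *
      hatw w (-(i.2.1 * Real.log i.1.1 + i.2.2 * Real.log i.1.2)))
    (fun i => i.1.1 ^ i.2.1 * i.1.2 ^ i.2.2) (fun _ => 1) ?_ (fun _ _ => one_pos) ?_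
  · intro i hi
    simp only [Finset.mem_product, Finset.mem_filter] at hi
    exact mul_pos (pow_pos (Nat.prime_of_mem_primesBelow hi.1.1.1).pos _)
      (pow_pos (Nat.prime_of_mem_primesBelow hi.1.1.2).pos _)
  · intro i hi j hj hij
    simp only [Finset.mem_product, Finset.mem_filter, Finset.mem_Icc] at hi hj
    simp only [mul_one] at hij
    obtain ⟨r1, r2, r3, r4⟩ := mm2_inj2 (Nat.prime_of_mem_primesBelow hi.1.1.1)
      (Nat.prime_of_mem_primesBelow hi.1.1.2) (Nat.prime_of_mem_primesBelow hj.1.1.1)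
      (Nat.prime_of_mem_primesBelow hj.1.1.2) hi.1.2 hj.1.2 hi.2.1.1 hi.2.2.1 hj.2.1.1
      hj.2.2.1 hij
    exact Prod.ext (Prod.ext r1 r2) (Prod.ext r3 r4)

theorem mm2_oC :
    ∃ Q₀ : ℕ, ∀ Q : ℕ, Q₀ ≤ Q → ∑ x ∈ pairs N Q, ‖mm2SC c P K w x‖ ^ 2 ≤
      ((∑ i ∈ (Nat.primesBelow (P + 1)).offDiag ×ˢ (Finset.Icc 1 K ×ˢ Finset.Icc 1 K),
        ‖c i.1.1 i.2.1 * starRingEnd ℂ (c i.1.2 i.2.2) *
          hatw w (i.2.2 * Real.log i.1.2 - i.2.1 * Real.log i.1.1)‖ ^ 2) + 1) * Q ^ 2 := by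
  unfold mm2SC
  refine mm2_orth N _ (fun i : (ℕ × ℕ) × (ℕ × ℕ) => c i.1.1 i.2.1 *
      starRingEnd ℂ (c i.1.2 i.2.2) *
      hatw w (i.2.2 * Real.log i.1.2 - i.2.1 * Real.log i.1.1))
    (fun i => i.1.1 ^ i.2.1) (fun i => i.1.2 ^ i.2.2) ?_ ?_ ?_
  · intro i hi
    simp only [Finset.mem_product, Finset.mem_offDiag] at hi
    exact pow_pos (Nat.prime_of_mem_primesBelow hi.1.1).pos _
  · intro i hi
    simp only [Finset.mem_product, Finset.mem_offDiag] at hi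
    exact pow_pos (Nat.prime_of_mem_primesBelow hi.1.2.1).pos _
  · intro i hi j hj hij
    simp only [Finset.mem_product, Finset.mem_offDiag, Finset.mem_Icc] at hi hj
    obtain ⟨r1, r2, r3, r4⟩ := mm2_inj3 (Nat.prime_of_mem_primesBelow hi.1.1)
      (Nat.prime_of_mem_primesBelow hi.1.2.1) (Nat.prime_of_mem_primesBelow hj.1.1)
      (Nat.prime_of_mem_primesBelow hj.1.2.1) hi.1.2.2 hj.1.2.2 hi.2.1.1 hj.2.1.1 hi.2.2.1
      hj.2.2.1 hij
    exact Prod.ext (Prod.ext r1 r2) (Prod.ext r3 r4)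

end

section
variable {c : ℕ → ℕ → ℂ} {v : ℕ → ℝ} {P K : ℕ} {C₀ : ℝ}

theorem mm2_sumB (H : MB c v P K C₀) (hC0 : 0 ≤ C₀) {w : ℝ → ℝ} {C₁ : ℝ}
    (hhat : ∀ u, ‖hatw w u‖ ^ 2 ≤ C₁ ^ 2 / (1 + u ^ 2)) :
    ∑ i ∈ ((Nat.primesBelow (P + 1) ×ˢ Nat.primesBelow (P + 1)).filter
      (fun q => q.1 < q.2)) ×ˢ (Finset.Icc 1 K ×ˢ Finset.Icc 1 K),
      ‖2 * (c i.1.1 i.2.1 * c i.1.2 i.2.2) *
        hatw w (-(i.2.1 * Real.log i.1.1 + i.2.2 * Real.log i.1.2))‖ ^ 2 ≤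
      8 * C₁ ^ 2 * C₀ * VF c P K := by
  rw [Finset.sum_product]
  have h1 := mm2_double H hC0 hhat (fun p j => -(j * Real.log p))
    (fun q r => -(r.1 * Real.log q.1 + r.2 * Real.log q.2)) (fun q r => by ring)
  have h2 : ∀ q ∈ (Nat.primesBelow (P + 1) ×ˢ Nat.primesBelow (P + 1)).filter
      (fun q => q.1 < q.2), ∑ r ∈ Finset.Icc 1 K ×ˢ Finset.Icc 1 K,
      ‖2 * (c q.1 r.1 * c q.2 r.2) *
        hatw w (-(r.1 * Real.log q.1 + r.2 * Real.log q.2))‖ ^ 2 =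
      4 * ∑ r ∈ Finset.Icc 1 K ×ˢ Finset.Icc 1 K,
        ‖c q.1 r.1‖ ^ 2 * ‖c q.2 r.2‖ ^ 2 *
          ‖hatw w (-(r.1 * Real.log q.1 + r.2 * Real.log q.2))‖ ^ 2 := by
    intro q _
    rw [Finset.mul_sum]
    refine Finset.sum_congr rfl fun r _ => ?_
    rw [norm_mul, norm_mul, norm_mul, Complex.norm_ofNat]
    ring
  rw [Finset.sum_congr rfl h2, ← Finset.mul_sum]
  have h3 := Finset.sum_le_sum_of_subset_of_nonneg (s := (Nat.primesBelow (P + 1) ×ˢ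
    Nat.primesBelow (P + 1)).filter (fun q => q.1 < q.2))
    (t := Nat.primesBelow (P + 1) ×ˢ Nat.primesBelow (P + 1))
    (f := fun q => ∑ r ∈ Finset.Icc 1 K ×ˢ Finset.Icc 1 K,
        ‖c q.1 r.1‖ ^ 2 * ‖c q.2 r.2‖ ^ 2 *
          ‖hatw w (-(r.1 * Real.log q.1 + r.2 * Real.log q.2))‖ ^ 2)
    (Finset.filter_subset _ _) (fun _ _ _ => Finset.sum_nonneg fun _ _ => by positivity)
  linarith

theorem mm2_sumC (H : MB c v P K C₀) (hC0 : 0 ≤ C₀) {w : ℝ → ℝ} {C₁ : ℝ}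
    (hhat : ∀ u, ‖hatw w u‖ ^ 2 ≤ C₁ ^ 2 / (1 + u ^ 2)) :
    ∑ i ∈ (Nat.primesBelow (P + 1)).offDiag ×ˢ (Finset.Icc 1 K ×ˢ Finset.Icc 1 K),
      ‖c i.1.1 i.2.1 * starRingEnd ℂ (c i.1.2 i.2.2) *
        hatw w (i.2.2 * Real.log i.1.2 - i.2.1 * Real.log i.1.1)‖ ^ 2 ≤
      2 * C₁ ^ 2 * C₀ * VF c P K := by
  rw [Finset.sum_product]
  have h1 := mm2_double H hC0 hhat (fun p j => (j * Real.log p))
    (fun q r => r.2 * Real.log q.2 - r.1 * Real.log q.1) (fun q r => by ring)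
  have h2 : ∀ q ∈ (Nat.primesBelow (P + 1)).offDiag, ∑ r ∈ Finset.Icc 1 K ×ˢ Finset.Icc 1 K,
      ‖c q.1 r.1 * starRingEnd ℂ (c q.2 r.2) *
        hatw w (r.2 * Real.log q.2 - r.1 * Real.log q.1)‖ ^ 2 =
      ∑ r ∈ Finset.Icc 1 K ×ˢ Finset.Icc 1 K,
        ‖c q.1 r.1‖ ^ 2 * ‖c q.2 r.2‖ ^ 2 *
          ‖hatw w (r.2 * Real.log q.2 - r.1 * Real.log q.1)‖ ^ 2 := by
    intro q _
    refine Finset.sum_congr rfl fun r _ => ?_
    rw [norm_mul, norm_mul, RCLike.norm_conj]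
    ring
  rw [Finset.sum_congr rfl h2]
  refine le_trans (Finset.sum_le_sum_of_subset_of_nonneg ?_ ?_) h1
  · intro q hq
    rw [Finset.mem_offDiag] at hq
    exact Finset.mem_product.2 ⟨hq.1, hq.2.1⟩
  · intro q _ _
    exact Finset.sum_nonneg fun _ _ => by positivity

end

/-! ### The theorem -/

/-- MM2 -/
theorem mm2_pr (N : ℕ) {w : ℝ → ℝ} (hw : Continuous w) (hc : HasCompactSupport w) {C₁ : ℝ}
    (hd : ∀ u, ‖hatw w u‖ ≤ C₁ / (1 + u ^ 2)) (C₀ : ℝ) : ∃ C : ℝ, 0 ≤ C ∧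
    ∀ (c : ℕ → ℕ → ℂ) (v : ℕ → ℝ) (P K : ℕ), MB c v P K C₀ → ∃ Q₀ : ℕ, ∀ Q : ℕ, Q₀ ≤ Q →
      ∑ x ∈ pairs N Q, ((∫ t : ℝ, w t * (FF c P K x t).re ^ 2) -
        (∫ t : ℝ, w t) * VF c P K / 2) ^ 2 ≤ C * (1 + VF c P K) * Q ^ 2 := by
  obtain ⟨Cn, hCn, hnum⟩ := conv_numeric_pr
  have hC1 : 0 ≤ C₁ := by
    have h := (norm_nonneg _).trans (hd 0)
    simpa using h
  have hhat := pm2_hhat hC1 hd
  set W := ∫ t : ℝ, w t with hW
  refine ⟨5 / 4 * (7 + 5 * (C₁ ^ 2 * Cn * C₀ ^ 2) + 10 * C₁ ^ 2 * |C₀| + 10 * W ^ 2 * |C₀|),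
    by positivity, ?_⟩
  intro c v P K H
  have hC0 : 0 ≤ C₀ := (H.w_nonneg 2).trans (H.w_le 2 Nat.prime_two)
  rw [abs_of_nonneg hC0]
  have hV : 0 ≤ VF c P K := by
    unfold VF
    positivity
  obtain ⟨Qa, ha⟩ := mm2_oD N P w (Finset.Icc 2 (2 * K))
    (fun l hl => by have := (Finset.mem_Icc.1 hl).1; omega) (mm2a c K)
  obtain ⟨Qd, hdd⟩ := mm2_oD N P w (Finset.Icc 1 K)
    (fun l hl => (Finset.mem_Icc.1 hl).1) (mm2b c K)
  obtain ⟨Qb, hb⟩ := mm2_oB N c P K w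
  obtain ⟨Qc, hcc⟩ := mm2_oC N c P K w
  refine ⟨max (max Qa Qd) (max Qb Qc), fun Q hQ => ?_⟩
  have q1 : Qa ≤ Q := (le_max_left _ _).trans ((le_max_left _ _).trans hQ)
  have q2 : Qd ≤ Q := (le_max_right _ _).trans ((le_max_left _ _).trans hQ)
  have q3 : Qb ≤ Q := (le_max_left _ _).trans ((le_max_right _ _).trans hQ)
  have q4 : Qc ≤ Q := (le_max_right _ _).trans ((le_max_right _ _).trans hQ)
  have hQ2 : (0 : ℝ) ≤ (Q : ℝ) ^ 2 := by positivity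
  have sA := mm2_sumdiag H hC0 hC1 hd hCn (Finset.Icc 2 (2 * K))
    (fun l => ∑ q ∈ (Finset.Icc 1 K ×ˢ Finset.Icc 1 K).filter (fun q => q.1 + q.2 = l),
      1 / ((q.1 : ℝ) * q.2)) (mm2a c K) (fun p hp l => mm2_a_le H hp l) (hnum K).1
  have sD := mm2_sumdiag H hC0 hC1 hd hCn (Finset.Icc 1 K)
    (fun l => ∑ k ∈ Finset.Icc 1 K, 1 / ((k : ℝ) * (k + l))) (mm2b c K)
    (fun p hp l => mm2_b_le H hp l) (hnum K).2
  have sB := mm2_sumB H hC0 hhat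
  have sC := mm2_sumC H hC0 hhat
  have tA : ∑ x ∈ pairs N Q, ‖mm2SA c P K w x‖ ^ 2 ≤
      (C₁ ^ 2 * Cn * C₀ ^ 2 * VF c P K + 1) * Q ^ 2 :=
    (ha Q q1).trans (mul_le_mul_of_nonneg_right (by linarith) hQ2)
  have tD : ∑ x ∈ pairs N Q, ‖mm2SD c P K w x‖ ^ 2 ≤
      (C₁ ^ 2 * Cn * C₀ ^ 2 * VF c P K + 1) * Q ^ 2 :=
    (hdd Q q2).trans (mul_le_mul_of_nonneg_right (by linarith) hQ2)
  have tB : ∑ x ∈ pairs N Q, ‖mm2SB c P K w x‖ ^ 2 ≤
      (8 * C₁ ^ 2 * C₀ * VF c P K + 1) * Q ^ 2 :=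
    (hb Q q3).trans (mul_le_mul_of_nonneg_right (by linarith) hQ2)
  have tC : ∑ x ∈ pairs N Q, ‖mm2SC c P K w x‖ ^ 2 ≤
      (2 * C₁ ^ 2 * C₀ * VF c P K + 1) * Q ^ 2 :=
    (hcc Q q4).trans (mul_le_mul_of_nonneg_right (by linarith) hQ2)
  have tE := mm2_sumD H N Q
  refine (Finset.sum_le_sum fun x _ => mm2_key c P K hw hc x).trans ?_
  rw [← Finset.mul_sum, Finset.sum_add_distrib, Finset.sum_add_distrib, Finset.sum_add_distrib,
    Finset.sum_add_distrib, ← Finset.mul_sum, ← Finset.mul_sum, ← Finset.mul_sum, ← hW]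
  have tF : W ^ 2 * (VF c P K * ∑ x ∈ pairs N Q, mm2D c P K x) ≤
      W ^ 2 * (VF c P K * (10 * C₀ * Q ^ 2)) :=
    mul_le_mul_of_nonneg_left (mul_le_mul_of_nonneg_left tE hV) (sq_nonneg W)
  have hfin : 5 / 4 * (((C₁ ^ 2 * Cn * C₀ ^ 2 * VF c P K + 1) * (Q : ℝ) ^ 2) +
      ((8 * C₁ ^ 2 * C₀ * VF c P K + 1) * (Q : ℝ) ^ 2) +
      ((2 * C₁ ^ 2 * C₀ * VF c P K + 1) * (Q : ℝ) ^ 2) +
      4 * ((C₁ ^ 2 * Cn * C₀ ^ 2 * VF c P K + 1) * (Q : ℝ) ^ 2) +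
      W ^ 2 * (VF c P K * (10 * C₀ * (Q : ℝ) ^ 2))) ≤
      5 / 4 * (7 + 5 * (C₁ ^ 2 * Cn * C₀ ^ 2) + 10 * C₁ ^ 2 * C₀ + 10 * W ^ 2 * C₀) *
        (1 + VF c P K) * (Q : ℝ) ^ 2 := by
    have e : 5 / 4 * (7 + 5 * (C₁ ^ 2 * Cn * C₀ ^ 2) + 10 * C₁ ^ 2 * C₀ + 10 * W ^ 2 * C₀) *
        (1 + VF c P K) * (Q : ℝ) ^ 2 -
      5 / 4 * (((C₁ ^ 2 * Cn * C₀ ^ 2 * VF c P K + 1) * (Q : ℝ) ^ 2) +
      ((8 * C₁ ^ 2 * C₀ * VF c P K + 1) * (Q : ℝ) ^ 2) +
      ((2 * C₁ ^ 2 * C₀ * VF c P K + 1) * (Q : ℝ) ^ 2) +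
      4 * ((C₁ ^ 2 * Cn * C₀ ^ 2 * VF c P K + 1) * (Q : ℝ) ^ 2) +
      W ^ 2 * (VF c P K * (10 * C₀ * (Q : ℝ) ^ 2))) =
      5 / 4 * (7 * VF c P K + 5 * (C₁ ^ 2 * Cn * C₀ ^ 2) + 10 * C₁ ^ 2 * C₀ +
        10 * W ^ 2 * C₀) * (Q : ℝ) ^ 2 := by ring
    have e2 : 0 ≤ 5 / 4 * (7 * VF c P K + 5 * (C₁ ^ 2 * Cn * C₀ ^ 2) + 10 * C₁ ^ 2 * C₀ +
        10 * W ^ 2 * C₀) * (Q : ℝ) ^ 2 := by positivity
    linarith
  refine le_trans ?_ hfin
  linarith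

end Pool.Agent.G5
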